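import Mathlib

/-!
# A dense subgroup of a power of `ZMod 2` that meets all countable conditions and has no nontrivial
convergent sequences

The vector space `V` over `ZMod 2` has a basis `B` whose elements code countably many conditions
(sequences of vectors of `V`, and values). The coordinates are the linearly independent sequences `s`
in `V`; the functional `f s` has the value `1` at all `s n`, and on a basis element which has `s` among
its conditions it has the value given there. No vector `s n` involves such a basis element, because
the coding is well-founded.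
-/

set_option autoImplicit false

open Set Filter Topology

namespace Pool.Agent.U492.SP

/-- the basis elements -/
inductive B : Type
  | zero : B
  | mk (P : ℕ → ℕ → ℕ → B) (len : ℕ → ℕ → ℕ) (q : ℕ → ZMod 2) : B

/-- the vector space -/
abbrev V : Type := B →₀ ZMod 2

/-- the sequences of vectors which are coded by a basis element -/
noncomputable def seqs : B → ℕ → ℕ → V
  | .zero, _, _ => 0
  | .mk P len _, k, n => ∑ j ∈ Finset.range (len k n), Finsupp.single (P k n j) 1

/-- the values which are coded by a basis element -/
def vals : B → ℕ → ZMod 2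
  | .zero, _ => 0
  | .mk _ _ q, k => q k

inductive Child : B → B → Prop
  | mk (P : ℕ → ℕ → ℕ → B) (len : ℕ → ℕ → ℕ) (q : ℕ → ZMod 2) (k n j : ℕ) :
      Child (P k n j) (B.mk P len q)

theorem child_wf : WellFounded Child := by
  constructor
  intro b
  induction b with
  | zero => constructor; intro y hy; cases hy
  | mk P len q ih => constructor; intro y hy; cases hy; exact ih _ _ _

theorem not_mem_support (b : B) (k n : ℕ) : b ∉ (seqs b k n).support := by
  classical
  intro h
  cases b with
  | zero => simp [seqs] at h
  | mk P len q =>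
    have h1 := Finsupp.support_finsetSum h
    simp only [Finset.mem_biUnion, Finset.mem_range] at h1
    obtain ⟨j, -, hj⟩ := h1
    have h2 : B.mk P len q = P k n j := by
      by_contra hne
      rw [Finsupp.mem_support_iff, Finsupp.single_apply, if_neg (fun h => hne h.symm)] at hj
      exact hj rfl
    have h3 : Child (P k n j) (B.mk P len q) := Child.mk P len q k n j
    rw [← h2] at h3
    exact child_wf.irrefl.irrefl _ h3

theorem exists_sum (v : V) : ∃ (m : ℕ) (p : ℕ → B),
    v = ∑ j ∈ Finset.range m, Finsupp.single (p j) 1 := by
  classical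
  induction v using Finsupp.induction with
  | zero => exact ⟨0, fun _ => B.zero, by simp⟩
  | single_add b c w hb hc ih =>
    obtain ⟨m, p, rfl⟩ := ih
    have hc1 : c = 1 := by
      revert hc
      revert c
      decide
    subst hc1
    refine ⟨m + 1, fun j => if j = m then b else p j, ?_⟩
    rw [Finset.sum_range_succ, add_comm]
    simp only [if_true]
    congr 1
    refine Finset.sum_congr rfl fun j hj => ?_
    rw [if_neg (Finset.mem_range.1 hj).ne]

/-- the coordinates: linearly independent sequences -/
abbrev I : Type := {s : ℕ → V // LinearIndependent (ZMod 2) s}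

theorem exists_g (s : I) : ∃ g : V →ₗ[ZMod 2] ZMod 2, ∀ n, g (s.1 n) = 1 := by
  obtain ⟨g, hg⟩ := LinearMap.exists_extend
    ((Finsupp.linearCombination (ZMod 2) (fun _ : ℕ => (1 : ZMod 2))) ∘ₗ s.2.repr)
  refine ⟨g, fun n => ?_⟩
  have h1 : s.1 n ∈ Submodule.span (ZMod 2) (Set.range s.1) := Submodule.subset_span ⟨n, rfl⟩
  have h2 := LinearMap.congr_fun hg ⟨s.1 n, h1⟩
  simp only [LinearMap.coe_comp, Function.comp_apply, Submodule.coe_subtype] at h2
  rw [h2]
  have h3 : s.2.repr ⟨s.1 n, h1⟩ = Finsupp.single n 1 := s.2.repr_eq_single n _ rfl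
  rw [h3]
  simp

open Classical in
/-- the values of the functional on the basis -/
noncomputable def cf (s : I) (b : B) : ZMod 2 :=
  if h : ∃ k, seqs b k = s.1 then vals b h.choose else (exists_g s).choose (Finsupp.single b 1)

/-- the functionals -/
noncomputable def f (s : I) : V →ₗ[ZMod 2] ZMod 2 := Finsupp.linearCombination (ZMod 2) (cf s)

theorem f_single (s : I) (b : B) : f s (Finsupp.single b 1) = cf s b := by
  simp [f]

theorem f_self (s : I) (n : ℕ) : f s (s.1 n) = 1 := by
  rw [← (exists_g s).choose_spec n]
  set g := (exists_g s).choose with hg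
  have h1 : ∀ v : V, (∀ b ∈ v.support, ¬ ∃ k, seqs b k = s.1) → f s v = g v := by
    intro v hv
    have h2 : g v = g (v.sum fun b c => Finsupp.single b c) := by rw [Finsupp.sum_single]
    rw [h2, f, Finsupp.linearCombination_apply, Finsupp.sum, Finsupp.sum, map_sum]
    refine Finset.sum_congr rfl fun b hb => ?_
    have h3 : Finsupp.single b (v b) = v b • (Finsupp.single b 1 : V) := by
      rw [Finsupp.smul_single, smul_eq_mul, mul_one]
    rw [h3, map_smul, cf, dif_neg (hv b hb)]
  refine h1 _ fun b hb => ?_
  rintro ⟨k, hk⟩
  rw [← hk] at hb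
  exact not_mem_support b k n hb

/-- countably many coordinates can be prescribed -/
theorem dens (c : ℕ → I) (r : I → ZMod 2) : ∃ v : V, ∀ k, f (c k) v = r (c k) := by
  have h1 : ∀ k n, ∃ (m : ℕ) (p : ℕ → B), (c k).1 n = ∑ j ∈ Finset.range m, Finsupp.single (p j) 1 :=
    fun k n => exists_sum _
  choose len P hP using h1
  set b : B := B.mk P len (fun k => r (c k)) with hb
  have h2 : ∀ k, seqs b k = (c k).1 := by
    intro k
    funext n
    rw [hP k n]
    rfl
  refine ⟨Finsupp.single b 1, fun k => ?_⟩
  rw [f_single, cf, dif_pos ⟨k, h2 k⟩]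
  have h3 : ∃ j, seqs b j = (c k).1 := ⟨k, h2 k⟩
  have h4 := h3.choose_spec
  rw [h2] at h4
  have h5 : c h3.choose = c k := Subtype.ext h4
  change r (c h3.choose) = r (c k)
  rw [h5]

/-- an injective sequence of vectors has linearly independent terms -/
theorem exists_indep (v : ℕ → V) (hv : Function.Injective v) :
    ∃ κ : ℕ → ℕ, Function.Injective κ ∧ LinearIndependent (ZMod 2) (fun j => v (κ j)) := by
  obtain ⟨T, hT, hspan, hind⟩ := exists_linearIndependent (ZMod 2) (Set.range v)
  have hinf : T.Infinite := by
    intro hfin
    have h1 : (Submodule.span (ZMod 2) T : Set V).Finite := by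
      have : Finite T := hfin.to_subtype
      have : Module.Finite (ZMod 2) (Submodule.span (ZMod 2) T) :=
        Module.Finite.iff_fg.2 (Submodule.fg_span hfin)
      have : Finite (Submodule.span (ZMod 2) T) := Module.finite_of_finite (ZMod 2)
      exact Set.toFinite _
    rw [hspan] at h1
    have h2 : (Set.range v).Finite := h1.subset Submodule.subset_span
    exact (Set.infinite_range_of_injective hv) h2
  have : Infinite T := hinf.to_subtype
  obtain ⟨t, ht⟩ : ∃ t : ℕ → T, Function.Injective t :=
    ⟨Infinite.natEmbedding T, (Infinite.natEmbedding T).injective⟩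
  have h3 : ∀ j, ∃ k, v k = (t j : V) := fun j => hT (t j).2
  choose κ hκ using h3
  refine ⟨κ, ?_, ?_⟩
  · intro i j hij
    apply ht
    apply Subtype.ext
    rw [← hκ i, ← hκ j, hij]
  · have h4 : (fun j => v (κ j)) = fun j => ((t j : T) : V) := funext hκ
    rw [h4]
    exact hind.comp t ht

theorem infinite_I : Infinite I := by
  have hB : ∃ e : ℕ → B, Function.Injective e := by
    refine ⟨fun n => B.mk (fun _ _ _ => B.zero) (fun _ _ => n) (fun _ => 0), ?_⟩
    intro m n h
    simp only [B.mk.injEq, true_and, and_true] at h
    exact congrFun (congrFun h 0) 0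
  obtain ⟨e, he⟩ := hB
  have h1 : ∀ m : ℕ, LinearIndependent (ZMod 2)
      (fun n : ℕ => (Finsupp.single (e (n + m)) 1 : V)) := by
    intro m
    have h2 : LinearIndependent (ZMod 2) (fun b : B => (Finsupp.single b 1 : V)) := by
      have := (Finsupp.basisSingleOne (R := ZMod 2) (ι := B)).linearIndependent
      simpa using this
    exact h2.comp (fun n : ℕ => e (n + m)) (fun a b h => by
      have := he h
      omega)
  refine Infinite.of_injective (fun m : ℕ => (⟨_, h1 m⟩ : I)) ?_
  intro m m' h
  have h3 := congrFun (Subtype.mk.inj h) 0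
  have h4 := (Finsupp.single_left_inj (one_ne_zero (α := ZMod 2))).1 h3
  have := he h4
  omega

end Pool.Agent.U492.SP
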