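import Pool.Agent.U492.SP.Core

/-!
# Sequential pseudocompactness of subgroups of powers of `ZMod 2`
-/

set_option autoImplicit false

open Set Filter Topology

namespace Pool.Agent.U492.SP

/-- `X` is sequentially pseudocompact (sequentially feebly compact): for every sequence of nonempty
open sets `U n` there are an infinite `J ⊆ ℕ` and a point `x` such that for every open neighbourhood
`W` of `x` only finitely many `n ∈ J` satisfy `W ∩ U n = ∅`. -/
def SeqPseudocompact (X : Type*) [TopologicalSpace X] : Prop :=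
  ∀ U : ℕ → Set X, (∀ n, IsOpen (U n)) → (∀ n, (U n).Nonempty) →
    ∃ J : Set ℕ, J.Infinite ∧ ∃ x : X, ∀ W : Set X, IsOpen W → x ∈ W →
      {n ∈ J | W ∩ U n = ∅}.Finite

/-- `X` is selectively sequentially pseudocompact: for every sequence of nonempty open sets `U n` one
can choose points `x n ∈ U n` such that `x` has a convergent subsequence. -/
def SelSeqPseudocompact (X : Type*) [TopologicalSpace X] : Prop :=
  ∀ U : ℕ → Set X, (∀ n, IsOpen (U n)) → (∀ n, (U n).Nonempty) →
    ∃ x : ℕ → X, (∀ n, x n ∈ U n) ∧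
      ∃ φ : ℕ → ℕ, StrictMono φ ∧ ∃ a : X, Tendsto (x ∘ φ) atTop (𝓝 a)

/-- the map of `V` to the power -/
noncomputable def F : V →+ (I → ZMod 2) := (LinearMap.pi fun s : I => f s).toAddMonoidHom

theorem F_apply (v : V) (s : I) : F v s = f s v := rfl

/-- the group -/
noncomputable def G : AddSubgroup (I → ZMod 2) := F.range

theorem F_mem (v : V) : F v ∈ G := ⟨v, rfl⟩

theorem dens' (c : ℕ → I) (r : I → ZMod 2) : ∃ x : G, ∀ k, x.1 (c k) = r (c k) := by
  obtain ⟨v, hv⟩ := dens c r
  exact ⟨⟨F v, F_mem v⟩, fun k => hv k⟩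

theorem dens_countable (S : Set I) (hS : S.Countable) (r : I → ZMod 2) :
    ∃ x : G, ∀ i ∈ S, x.1 i = r i := by
  rcases S.eq_empty_or_nonempty with h | h
  · exact ⟨0, by simp [h]⟩
  · obtain ⟨c, hc⟩ := hS.exists_eq_range h
    obtain ⟨x, hx⟩ := dens' c r
    refine ⟨x, fun i hi => ?_⟩
    rw [hc] at hi
    obtain ⟨k, rfl⟩ := hi
    exact hx k

/-- basic neighbourhoods -/
theorem nhd {W : Set G} (hW : IsOpen W) {x : G} (hx : x ∈ W) :
    ∃ A : Finset I, ∀ z : G, (∀ i ∈ A, z.1 i = x.1 i) → z ∈ W := by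
  obtain ⟨O, hO, rfl⟩ := isOpen_induced_iff.1 hW
  obtain ⟨A, u, hu, hAu⟩ := isOpen_pi_iff.1 hO x.1 hx
  refine ⟨A, fun z hz => ?_⟩
  apply hAu
  intro i hi
  rw [hz i hi]
  exact (hu i hi).2

theorem isOpen_coord (s : I) (c : ZMod 2) : IsOpen {x : G | x.1 s = c} := by
  have h1 : Continuous fun x : G => x.1 s := (continuous_apply s).comp continuous_subtype_val
  exact (isOpen_discrete {c}).preimage h1

theorem seqPseudocompact : SeqPseudocompact G := by
  classical
  intro U hU hne
  choose y hy using hne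
  have h1 : ∀ n, ∃ A : Finset I, ∀ z : G, (∀ i ∈ A, z.1 i = (y n).1 i) → z ∈ U n :=
    fun n => nhd (hU n) (hy n)
  choose A hA using h1
  set S : Set I := ⋃ n, (A n : Set I) with hS
  have hSc : S.Countable := Set.countable_iUnion fun n => (A n).countable_toSet
  have : Countable S := hSc.to_subtype
  -- a subsequence along which the conditions converge
  let p : ℕ → (S → ZMod 2 × ZMod 2) := fun n i => (if i.1 ∈ A n then 1 else 0, (y n).1 i.1)
  obtain ⟨a, φ, hφ, ha⟩ := CompactSpace.tendsto_subseq p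
  have h2 : ∀ i : S, ∀ᶠ m in atTop, p (φ m) i = a i := by
    intro i
    have h3 : Tendsto (fun m => p (φ m) i) atTop (𝓝 (a i)) :=
      ((continuous_apply i).tendsto a).comp ha
    have h4 := h3 ((isOpen_discrete {a i}).mem_nhds rfl)
    exact h4
  obtain ⟨x, hx⟩ := dens_countable S hSc (fun i => if h : i ∈ S then (a ⟨i, h⟩).2 else 0)
  have h3 : ∀ i : I, ∀ᶠ m in atTop, i ∈ A (φ m) → (y (φ m)).1 i = x.1 i := by
    intro i
    by_cases hi : i ∈ S
    · filter_upwards [h2 ⟨i, hi⟩] with m hm _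
      rw [hx i hi, dif_pos hi, ← hm]
    · refine Eventually.of_forall fun m hm => absurd ?_ hi
      exact Set.mem_iUnion.2 ⟨φ m, hm⟩
  refine ⟨Set.range φ, Set.infinite_range_of_injective hφ.injective, x, ?_⟩
  intro W hW hxW
  obtain ⟨C, hC⟩ := nhd hW hxW
  have h4 : ∀ᶠ m in atTop, ∀ i ∈ C, i ∈ A (φ m) → (y (φ m)).1 i = x.1 i :=
    (Filter.eventually_all_finset C).2 fun i _ => h3 i
  obtain ⟨M, hM⟩ := eventually_atTop.1 h4
  refine ((Set.finite_Iio M).image φ).subset ?_
  rintro n ⟨⟨m, rfl⟩, hm⟩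
  refine ⟨m, ?_, rfl⟩
  by_contra hlt
  have hmM : M ≤ m := not_lt.1 hlt
  obtain ⟨z, hz⟩ := dens_countable (↑(C ∪ A (φ m)) : Set I) (Finset.countable_toSet _)
    (fun i => if i ∈ C then x.1 i else (y (φ m)).1 i)
  have h5 : z ∈ W := by
    refine hC z fun i hi => ?_
    rw [hz i (by simp [hi]), if_pos hi]
  have h6 : z ∈ U (φ m) := by
    refine hA (φ m) z fun i hi => ?_
    rw [hz i (by simp [hi])]
    by_cases hc : i ∈ C
    · rw [if_pos hc]
      exact (hM m hmM i hc hi).symm
    · rw [if_neg hc]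
  have h7 : z ∈ W ∩ U (φ m) := ⟨h5, h6⟩
  rw [hm] at h7
  exact h7

/-- a convergent sequence in the group takes only finitely many values, so no injective sequence
converges -/
theorem not_tendsto (x : ℕ → G) (hx : Function.Injective x) (a : G) : ¬ Tendsto x atTop (𝓝 a) := by
  intro h
  have h1 : ∀ n, ∃ v : V, F v = (x n).1 - a.1 := fun n => (x n - a).2
  choose v hv using h1
  have hvi : Function.Injective v := by
    intro m n hmn
    apply hx
    apply Subtype.ext
    have h2 := hv m
    rw [hmn, hv n] at h2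
    exact (sub_left_injective h2).symm
  obtain ⟨κ, hκ, hind⟩ := exists_indep v hvi
  set s : I := ⟨fun j => v (κ j), hind⟩ with hs
  have h2 : ∀ j, (x (κ j)).1 s = a.1 s + 1 := by
    intro j
    have h3 := congrFun (hv (κ j)) s
    rw [F_apply] at h3
    have h4 : f s (v (κ j)) = 1 := f_self s j
    rw [h4, Pi.sub_apply] at h3
    rw [h3]
    abel
  have h3 : Tendsto (fun j => x (κ j)) atTop (𝓝 a) := h.comp hκ.nat_tendsto_atTop
  have h4 : ∀ᶠ j in atTop, (x (κ j)).1 s = a.1 s :=
    h3 ((isOpen_coord s (a.1 s)).mem_nhds rfl)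
  obtain ⟨j, hj⟩ := h4.exists
  rw [h2 j] at hj
  have : (1 : ZMod 2) = 0 := by
    have h5 : a.1 s + 1 = a.1 s + 0 := by rw [hj, add_zero]
    exact add_left_cancel h5
  exact absurd this (by decide)

/-- all convergent sequences are eventually constant -/
theorem eventually_eq (x : ℕ → G) (a : G) (h : Tendsto x atTop (𝓝 a)) :
    ∀ᶠ n in atTop, x n = a := by
  by_contra hne
  obtain ⟨ψ, hψ, hψa⟩ := extraction_of_frequently_atTop (Filter.not_eventually.1 hne)
  have h1 : Tendsto (x ∘ ψ) atTop (𝓝 a) := h.comp hψ.tendsto_atTop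
  have hinf : (Set.range (x ∘ ψ)).Infinite := by
    intro hfin
    have h2 : IsOpen (Set.range (x ∘ ψ))ᶜ := hfin.isClosed.isOpen_compl
    have h3 : a ∈ (Set.range (x ∘ ψ))ᶜ := by
      rintro ⟨n, hn⟩
      exact hψa n hn
    obtain ⟨n, hn⟩ := (h1.eventually (h2.mem_nhds h3)).exists
    exact hn ⟨n, rfl⟩
  have := hinf.to_subtype
  obtain ⟨t, ht⟩ : ∃ t : ℕ → Set.range (x ∘ ψ), Function.Injective t :=
    ⟨Infinite.natEmbedding _, (Infinite.natEmbedding _).injective⟩
  have h4 : ∀ j, ∃ k, (x ∘ ψ) k = (t j : G) := fun j => (t j).2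
  choose κ hκ using h4
  have h5 : Function.Injective fun j => (x ∘ ψ) (κ j) := by
    intro i j hij
    apply ht
    apply Subtype.ext
    rw [← hκ i, ← hκ j]
    exact hij
  have h6 : Function.Injective κ := fun i j hij => h5 (by simp only [hij])
  exact not_tendsto _ h5 a (h1.comp h6.nat_tendsto_atTop)

theorem not_sel : ¬ SelSeqPseudocompact G := by
  classical
  intro h
  have := infinite_I
  obtain ⟨e, he⟩ : ∃ e : ℕ → I, Function.Injective e :=
    ⟨Infinite.natEmbedding I, (Infinite.natEmbedding I).injective⟩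
  let U : ℕ → Set G := fun n => {x : G | x.1 (e n) = 1} ∩ ⋂ k ∈ Finset.range n, {x : G | x.1 (e k) = 0}
  have hU : ∀ n, IsOpen (U n) := by
    intro n
    refine (isOpen_coord _ _).inter ?_
    exact isOpen_biInter_finset fun k _ => isOpen_coord _ _
  have hne : ∀ n, (U n).Nonempty := by
    intro n
    obtain ⟨x, hx⟩ := dens' e (fun i => if i = e n then 1 else 0)
    refine ⟨x, ?_, ?_⟩
    · change x.1 (e n) = 1
      rw [hx n, if_pos rfl]
    · refine Set.mem_iInter₂.2 fun k hk => ?_
      change x.1 (e k) = 0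
      rw [hx k, if_neg]
      intro hkn
      exact (Finset.mem_range.1 hk).ne (he hkn)
  obtain ⟨x, hx, φ, hφ, a, ha⟩ := h U hU hne
  have hinj : Function.Injective x := by
    have h1 : ∀ m n, m < n → x m ≠ x n := by
      intro m n hmn heq
      have h2 : (x m).1 (e m) = 1 := (hx m).1
      have h3 : (x n).1 (e m) = 0 := by
        have := Set.mem_iInter₂.1 (hx n).2 m (Finset.mem_range.2 hmn)
        exact this
      rw [heq, h3] at h2
      exact absurd h2 (by decide)
    intro m n hmn
    rcases lt_trichotomy m n with h2 | h2 | h2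
    · exact absurd hmn (h1 m n h2)
    · exact h2
    · exact absurd hmn.symm (h1 n m h2)
  exact not_tendsto (x ∘ φ) (hinj.comp hφ.injective) a ha

end Pool.Agent.U492.SP
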